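import Pool.Agent.Helper27.PB.Goals

/-!
# MP_b440f6_pr, project (D): window sums of renewal masses
-/

open scoped ENNReal
open Finset

namespace Pool.Agent.Helper37.PB

open Pool.Agent.Helper92.Eps hiding Bas
open Pool.Agent.Helper27.PB

theorem win_le {B : Type} {D : ℕ} (A : Alph B D) (lo I X : ℕ) :
    ∑' m : List B, iv (lo ≤ X + A.H m ∧ X + A.H m < lo + I) (A.W m) ≤
      ∑ k ∈ range I, A.u (lo - X + k) := by
  have h1 : ∀ m : List B, iv (lo ≤ X + A.H m ∧ X + A.H m < lo + I) (A.W m) ≤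
      ∑ k ∈ range I, iv (A.H m = lo - X + k) (A.W m * 1) := by
    intro m
    by_cases hm : lo ≤ X + A.H m ∧ X + A.H m < lo + I
    · have h2 : A.H m - (lo - X) ∈ range I := by
        rw [mem_range]
        omega
      have h3 : A.H m = lo - X + (A.H m - (lo - X)) := by omega
      calc iv (lo ≤ X + A.H m ∧ X + A.H m < lo + I) (A.W m) = A.W m := if_pos hm
        _ = iv (A.H m = lo - X + (A.H m - (lo - X))) (A.W m * 1) := by
            rw [mul_one]
            exact (if_pos h3).symm
        _ ≤ ∑ k ∈ range I, iv (A.H m = lo - X + k) (A.W m * 1) :=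
            single_le_sum (f := fun k => iv (A.H m = lo - X + k) (A.W m * 1))
              (fun _ _ => zero_le) h2
    · calc iv (lo ≤ X + A.H m ∧ X + A.H m < lo + I) (A.W m) = 0 := if_neg hm
        _ ≤ _ := zero_le
  calc ∑' m : List B, iv (lo ≤ X + A.H m ∧ X + A.H m < lo + I) (A.W m)
      ≤ ∑' m : List B, ∑ k ∈ range I, iv (A.H m = lo - X + k) (A.W m * 1) :=
        ENNReal.tsum_le_tsum h1
    _ = ∑ k ∈ range I, ∑' m : List B, iv (A.H m = lo - X + k) (A.W m * 1) :=
        Summable.tsum_finsetSum (fun _ _ => ENNReal.summable)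
    _ = ∑ k ∈ range I, A.u (lo - X + k) := rfl

theorem WIN : WIN_stmt := by
  intro B D A _ _ hanti lo I X
  have hu : ∀ a b, a ≤ b → A.u b ≤ A.u a := fun a b h => (hanti b).u_anti a b h le_rfl
  refine ⟨(win_le A lo I X).trans ?_, fun a ha => (win_le A lo I X).trans ?_⟩
  · calc ∑ k ∈ range I, A.u (lo - X + k) ≤ ∑ k ∈ range I, A.u k :=
          sum_le_sum fun k _ => hu _ _ (Nat.le_add_left _ _)
      _ ≤ ∑ k ∈ range (I + 1), A.u k :=
          sum_le_sum_of_subset (range_mono (Nat.le_succ I))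
      _ = A.S I := rfl
  · calc ∑ k ∈ range I, A.u (lo - X + k) ≤ ∑ k ∈ range I, A.u a :=
          sum_le_sum fun k _ => hu _ _ (by omega)
      _ = I * A.u a := by rw [sum_const, card_range, nsmul_eq_mul]

end Pool.Agent.Helper37.PB
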